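import Mathlib
import Pool.Agent.Work.MP_64713a_lc.Final

set_option autoImplicit false

open Filter

namespace Pool.Agent.Results.MP_64713a_lc.LowerDensityAvoidance

/-- the list of the first `m` values of a sequence -/
def pre {α : Type} (f : ℕ → α) (m : ℕ) : List α := (List.range m).map f

/-- the characteristic function of a set of natural numbers -/
noncomputable def chi (B : Set ℕ) : ℕ → Bool := fun i => by
  classical exact decide (i ∈ B)

/-- `X` is `Σ¹₁` relative to `B`: `n ∈ X ↔ ∃ f ∀ m R(n, B|m, f|m)` with `R` computable. -/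
def SigmaIn (X B : Set ℕ) : Prop :=
  ∃ R : ℕ → List Bool → List ℕ → Prop,
    ComputablePred (fun p : ℕ × List Bool × List ℕ => R p.1 p.2.1 p.2.2) ∧
    ∀ n : ℕ, n ∈ X ↔ ∃ f : ℕ → ℕ, ∀ m : ℕ, R n (pre (chi B) m) (pre f m)

/-- `X` is `Π¹₁` relative to `B`: `n ∈ X ↔ ∀ f ∃ m R(n, B|m, f|m)` with `R` computable. -/
def PiIn (X B : Set ℕ) : Prop :=
  ∃ R : ℕ → List Bool → List ℕ → Prop,
    ComputablePred (fun p : ℕ × List Bool × List ℕ => R p.1 p.2.1 p.2.2) ∧
    ∀ n : ℕ, n ∈ X ↔ ∀ f : ℕ → ℕ, ∃ m : ℕ, R n (pre (chi B) m) (pre f m)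

/-- `X` is hyperarithmetic in `B`: it is `Δ¹₁` relative to `B`. -/
def HypIn (X B : Set ℕ) : Prop := SigmaIn X B ∧ PiIn X B

private def toNats (l : List Bool) : List ℕ := l.map (fun b => if b then 1 else 0)

private def toBits (l : List ℕ) : List Bool := l.map (fun k => k == 1)

private lemma map_chi (B : Set ℕ) (m : ℕ) :
    toNats (pre (chi B) m) = (List.range m).map (B.indicator (fun _ => (1 : ℕ))) := by
  classical
  unfold pre toNats
  rw [List.map_map]
  apply List.map_congr_left
  intro i _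
  by_cases h : i ∈ B <;> simp [chi, h]

private lemma map_ind (B : Set ℕ) (m : ℕ) :
    toBits ((List.range m).map (B.indicator (fun _ => (1 : ℕ)))) = pre (chi B) m := by
  classical
  unfold pre toBits
  rw [List.map_map]
  apply List.map_congr_left
  intro i _
  by_cases h : i ∈ B <;> simp [chi, h]

private lemma comp_nats : Computable toNats :=
  (Primrec.list_map Primrec.id
    ((Primrec.dom_finite (fun b : Bool => if b then 1 else 0)).comp Primrec.snd).to₂).to_comp

private lemma comp_bits : Computable toBits :=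
  (Primrec.list_map Primrec.id
    (Primrec.beq.comp Primrec.snd (Primrec.const 1)).to₂).to_comp

private lemma comp3 {α β : Type} [Primcodable α] [Primcodable β] {g : α → β}
    (hg : Computable g) : Computable (fun p : ℕ × α × List ℕ => (p.1, g p.2.1, p.2.2)) :=
  Computable.fst.pair ((hg.comp (Computable.fst.comp Computable.snd)).pair
    (Computable.snd.comp Computable.snd))

private lemma pull0 {α β : Type} [Primcodable α] [Primcodable β] {p : β → Prop}
    (hp : ComputablePred p) {f : α → β} (hf : Computable f) :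
    ComputablePred (fun a => p (f a)) := by
  obtain ⟨d, hd⟩ := hp
  refine ⟨fun a => d (f a), ?_⟩
  exact Computable.comp hd hf

private lemma pull {α β : Type} [Primcodable α] [Primcodable β] {R : ℕ → β → List ℕ → Prop}
    (hp : ComputablePred (fun p : ℕ × β × List ℕ => R p.1 p.2.1 p.2.2)) {g : α → β}
    (hg : Computable g) :
    ComputablePred (fun p : ℕ × α × List ℕ => R p.1 (g p.2.1) p.2.2) :=
  pull0 hp (comp3 hg)

private lemma piIn_iff (X B : Set ℕ) : PiIn X B ↔ Pool.Agent.Work.MP_64713a_lc.Pi11 X B := by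
  constructor
  · rintro ⟨R, hR, h⟩
    refine ⟨fun n b l => R n (toBits b) l, pull hR comp_bits, ?_⟩
    intro n
    rw [h n]
    simp only [map_ind]
    rfl
  · rintro ⟨R, hR, h⟩
    refine ⟨fun n b l => R n (toNats b) l, pull hR comp_nats, ?_⟩
    intro n
    rw [h n]
    simp only [map_chi]
    rfl

private lemma sigmaIn_iff (X B : Set ℕ) : SigmaIn X B ↔ PiIn Xᶜ B := by
  constructor
  · rintro ⟨R, hR, h⟩
    refine ⟨fun n b l => ¬ R n b l, hR.not, ?_⟩
    intro n
    rw [Set.mem_compl_iff, h n]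
    push Not
    rfl
  · rintro ⟨R, hR, h⟩
    refine ⟨fun n b l => ¬ R n b l, hR.not, ?_⟩
    intro n
    have := (h n).not
    rw [Set.mem_compl_iff, not_not] at this
    rw [this]
    push Not
    rfl

private lemma hyp_iff (X B : Set ℕ) : HypIn X B ↔
    Pool.Agent.Work.MP_64713a_lc.Pi11 X B ∧ Pool.Agent.Work.MP_64713a_lc.Pi11 Xᶜ B := by
  unfold HypIn
  rw [sigmaIn_iff, piIn_iff, piIn_iff, and_comm]

/-- **Hyperarithmetic avoidance inside sets of positive lower density.** If `X` is not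
hyperarithmetic and `A` has positive lower density `liminf |A ∩ [0,n)| / n > 0`, then some infinite
`B ⊆ A` has `X` not hyperarithmetic in `B`. -/
theorem result (X A : Set ℕ) (hX : ¬ HypIn X ∅)
    (hA : 0 < liminf (fun n : ℕ => ((A ∩ Set.Iio n).ncard : ℝ) / (n : ℝ)) atTop) :
    ∃ B : Set ℕ, B ⊆ A ∧ B.Infinite ∧ ¬ HypIn X B := by
  rw [hyp_iff] at hX
  have hA' : ∃ δ : ℝ, 0 < δ ∧ ∀ᶠ n : ℕ in atTop, δ * (n : ℝ) ≤ ((A ∩ Set.Iio n).ncard : ℝ) := by
    obtain ⟨δ, h0, h1⟩ := exists_between hA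
    refine ⟨δ, h0, ?_⟩
    have hb : IsBoundedUnder (· ≥ ·) atTop
        (fun n : ℕ => ((A ∩ Set.Iio n).ncard : ℝ) / (n : ℝ)) :=
      isBoundedUnder_of ⟨0, fun n => by positivity⟩
    filter_upwards [eventually_lt_of_lt_liminf h1 hb, eventually_gt_atTop 0] with n hn hn0
    have : (0 : ℝ) < n := by exact_mod_cast hn0
    rw [lt_div_iff₀ this] at hn
    exact hn.le
  obtain ⟨B, h1, h2, h3⟩ := Pool.Agent.Work.MP_64713a_lc.main_thm X A hX hA'
  exact ⟨B, h1, h2, by rw [hyp_iff]; exact h3⟩

end Pool.Agent.Results.MP_64713a_lc.LowerDensityAvoidance
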